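import Pool.Agent.Q49.TL.Alg

set_option autoImplicit false

/-!
# ALG: the weighted Tsen property passes to algebraic extensions
-/

namespace Pool.Agent.Q177.TL.Alg

open MvPolynomial Pool.Agent.Q49.TL

/-- Weights under substitution. -/
theorem hom_subst {R : Type} [CommRing R] {ι τ : Type} [Finite ι] (w : ι → ℕ) (w' : τ → ℕ)
    (g : ι → MvPolynomial τ R) (hg : ∀ i, IsWeightedHomogeneous w' (g i) (w i))
    (f : MvPolynomial ι R) (n : ℕ) (hf : IsWeightedHomogeneous w f n) :
    IsWeightedHomogeneous w' (aeval g f) n := by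
  classical
  haveI := Fintype.ofFinite ι
  rw [aeval_def, eval₂_eq']
  refine IsWeightedHomogeneous.sum _ _ _ fun d hd => ?_
  have h1 : IsWeightedHomogeneous w' (∏ i, g i ^ d i) n := by
    have h2 : ∑ i, d i • w i = n := by
      have := hf (mem_support_iff.1 hd)
      rwa [Finsupp.weight_apply, Finsupp.sum_fintype _ _ (by simp)] at this
    rw [← h2]
    exact IsWeightedHomogeneous.prod _ _ _ fun i _ => (hg i).pow _
  rw [algebraMap_eq]
  exact h1.C_mul _

section

variable {K L τ : Type} [Field K] [Field L] [Algebra K L] {m : ℕ}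

/-- The component of a polynomial for a basis. -/
noncomputable def cp (b : Module.Basis (Fin m) K L) (k : Fin m) (g : MvPolynomial τ L) :
    MvPolynomial τ K := ∑ d ∈ g.support, monomial d (b.repr (coeff d g) k)

theorem coeff_cp (b : Module.Basis (Fin m) K L) (k : Fin m) (g : MvPolynomial τ L)
    (d : τ →₀ ℕ) : coeff d (cp b k g) = b.repr (coeff d g) k := by
  classical
  rw [cp, coeff_sum]
  simp only [coeff_monomial]
  rw [Finset.sum_ite_eq']
  split_ifs with h
  · rfl
  · rw [notMem_support_iff.1 h, map_zero, Finsupp.zero_apply]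

theorem hom_cp (b : Module.Basis (Fin m) K L) (k : Fin m) (g : MvPolynomial τ L)
    (w : τ → ℕ) (n : ℕ) (hg : IsWeightedHomogeneous w g n) :
    IsWeightedHomogeneous w (cp b k g) n := by
  intro d hd
  refine hg fun h => hd ?_
  rw [coeff_cp, h, map_zero, Finsupp.zero_apply]

theorem sum_cp (b : Module.Basis (Fin m) K L) (g : MvPolynomial τ L) :
    ∑ k, C (b k) * map (algebraMap K L) (cp b k g) = g := by
  ext d
  rw [coeff_sum]
  simp only [coeff_C_mul, coeff_map, coeff_cp]
  conv_rhs => rw [← b.sum_repr (coeff d g)]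
  refine Finset.sum_congr rfl fun k _ => ?_
  rw [Algebra.smul_def, mul_comm]

theorem fin_case {φ : ℕ → ℕ} (hK : Tsen φ K) [FiniteDimensional K L] : Tsen φ L := by
  classical
  intro ι κ _ _ w e f hw he hf h
  set m := Module.finrank K L with hm
  have hmpos : 0 < m := Module.finrank_pos
  let b : Module.Basis (Fin m) K L := Module.finBasis K L
  let w' : ι × Fin m → ℕ := fun x => w x.1
  let s : ι → MvPolynomial (ι × Fin m) L := fun i => ∑ k, C (b k) * X (i, k)
  have hs : ∀ i, IsWeightedHomogeneous w' (s i) (w i) := by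
    intro i
    refine IsWeightedHomogeneous.sum _ _ _ fun k _ => ?_
    exact (isWeightedHomogeneous_X L w' (i, k)).C_mul _
  let g : κ × Fin m → MvPolynomial (ι × Fin m) K := fun x => cp b x.2 (aeval s (f x.1))
  obtain ⟨y, hy0, hy⟩ := hK (ι × Fin m) (κ × Fin m) w' (fun x => e x.1) g (fun x => hw x.1)
    (fun x => he x.1) (fun x => hom_cp b x.2 _ w' _ (hom_subst w w' s hs (f x.1) _ (hf x.1)))
    (by
      simp only [w', Fintype.sum_prod_type, Finset.sum_const, Finset.card_univ,
        Fintype.card_fin, smul_eq_mul]
      rw [← Finset.mul_sum, ← Finset.mul_sum]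
      exact Nat.mul_lt_mul_of_pos_left h hmpos)
  refine ⟨fun i => ∑ k, b k * algebraMap K L (y (i, k)), ?_, ?_⟩
  · intro h0
    apply hy0
    ext ⟨i, k⟩
    have h1 : ∑ k, (y (i, k)) • b k = 0 := by
      have := congrFun h0 i
      simp only [Pi.zero_apply] at this
      rw [← this]
      refine Finset.sum_congr rfl fun k _ => ?_
      rw [Algebra.smul_def, mul_comm]
    exact Fintype.linearIndependent_iff.1 b.linearIndependent (fun k => y (i, k)) h1 k
  · intro j
    have h1 : eval (fun i => ∑ k, b k * algebraMap K L (y (i, k))) (f j) =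
        eval (fun x => algebraMap K L (y x)) (aeval s (f j)) := by
      rw [← aeval_eq_eval, ← aeval_eq_eval]
      have : (aeval (fun x => algebraMap K L (y x)) : MvPolynomial (ι × Fin m) L →ₐ[L] L).comp
          (aeval s) = aeval (fun i => ∑ k, b k * algebraMap K L (y (i, k))) := by
        apply MvPolynomial.algHom_ext
        intro i
        simp [s]
      rw [← this]
      rfl
    rw [h1, ← sum_cp b (aeval s (f j)), map_sum]
    refine Finset.sum_eq_zero fun k _ => ?_
    have h2 := MvPolynomial.eval₂_comp (algebraMap K L) y (cp b k (aeval s (f j)))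
    have h3 : eval y (cp b k (aeval s (f j))) = 0 := hy (j, k)
    rw [h3, map_zero] at h2
    rw [map_mul, eval_map]
    exact mul_eq_zero_of_right _ h2.symm

end

theorem alg : S_ALG := by
  classical
  intro φ K K' _ _ _ _ hK ι κ _ _ w e f hw he hf h
  let S : Finset K' := Finset.univ.biUnion fun j => (f j).coeffs
  let E : IntermediateField K K' := IntermediateField.adjoin K (S : Set K')
  haveI : FiniteDimensional K E :=
    IntermediateField.finiteDimensional_adjoin fun x _ => (Algebra.IsAlgebraic.isAlgebraic x).isIntegral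
  have hE : Tsen φ E := fin_case hK
  have hex : ∀ j, ∃ g : MvPolynomial ι E, map (algebraMap E K') g = f j := by
    intro j
    have : f j ∈ Set.range (map (algebraMap E K') : MvPolynomial ι E → MvPolynomial ι K') := by
      rw [mem_range_map_iff_coeffs_subset]
      intro x hx
      have hxS : x ∈ S := Finset.mem_biUnion.2 ⟨j, Finset.mem_univ j, hx⟩
      exact ⟨⟨x, IntermediateField.subset_adjoin K (S : Set K') hxS⟩, rfl⟩
    exact this
  choose g hg using hex
  have hinj : Function.Injective (algebraMap E K') := (algebraMap E K').injective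
  have hgw : ∀ j, IsWeightedHomogeneous w (g j) (e j) := by
    intro j d hd
    refine hf j ?_
    rw [← hg j, coeff_map]
    exact fun h => hd (hinj (h.trans (map_zero _).symm))
  obtain ⟨x, hx0, hx⟩ := hE ι κ w e g hw he hgw h
  refine ⟨fun i => algebraMap E K' (x i), ?_, ?_⟩
  · intro h0
    apply hx0
    ext i
    have := congrFun h0 i
    simp only [Pi.zero_apply] at this
    exact congrArg _ (hinj (this.trans (map_zero _).symm))
  · intro j
    have h2 := MvPolynomial.eval₂_comp (algebraMap E K') x (g j)
    rw [hx j, map_zero] at h2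
    rw [← hg j, eval_map]
    exact h2.symm

end Pool.Agent.Q177.TL.Alg
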