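import Pool.Agent.Q49.TL.Alg

set_option autoImplicit false

/-!
# CW: the weighted theorem of Chevalley and Warning
-/

namespace Pool.Agent.Q177.TL.Cw

open MvPolynomial Pool.Agent.Q49.TL

open Function hiding eval

open Finset FiniteField

section

variable {K σ : Type} [Fintype K] [Field K] [Fintype σ] [DecidableEq σ]

/-- All monomials of `F` have weight at most `N`. -/
def Bd (w : σ → ℕ) (N : ℕ) (F : MvPolynomial σ K) : Prop :=
  ∀ d ∈ F.support, ∑ i, w i * d i ≤ N

omit [Fintype K] [DecidableEq σ] in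
theorem bd_mono {w : σ → ℕ} {N M : ℕ} {F : MvPolynomial σ K} (h : N ≤ M) (hF : Bd w N F) :
    Bd w M F := fun d hd => (hF d hd).trans h

omit [Fintype K] in
theorem bd_one (w : σ → ℕ) (N : ℕ) : Bd w N (1 : MvPolynomial σ K) := by
  intro d hd
  have : d = 0 := by
    rw [mem_support_iff, coeff_one] at hd
    by_contra h
    exact hd (if_neg fun h' => h h'.symm)
  subst this
  simp

omit [Fintype K] [DecidableEq σ] in
theorem bd_sub {w : σ → ℕ} {N : ℕ} {F G : MvPolynomial σ K} (hF : Bd w N F) (hG : Bd w N G) :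
    Bd w N (F - G) := by
  intro d hd
  rw [mem_support_iff, coeff_sub] at hd
  by_cases h : coeff d F = 0
  · refine hG d (mem_support_iff.2 fun h' => hd ?_)
    rw [h, h', sub_zero]
  · exact hF d (mem_support_iff.2 h)

omit [Fintype K] in
theorem bd_mul {w : σ → ℕ} {N M : ℕ} {F G : MvPolynomial σ K} (hF : Bd w N F) (hG : Bd w M G) :
    Bd w (N + M) (F * G) := by
  intro d hd
  have := support_mul F G hd
  rw [Finset.mem_add] at this
  obtain ⟨a, ha, b, hb, rfl⟩ := this
  have h1 := hF a ha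
  have h2 := hG b hb
  calc ∑ i, w i * (a + b) i = ∑ i, w i * a i + ∑ i, w i * b i := by
        rw [← Finset.sum_add_distrib]
        refine Finset.sum_congr rfl fun i _ => ?_
        rw [Finsupp.add_apply, mul_add]
    _ ≤ N + M := by omega

omit [Fintype K] in
theorem bd_pow {w : σ → ℕ} {N : ℕ} {F : MvPolynomial σ K} (hF : Bd w N F) (k : ℕ) :
    Bd w (k * N) (F ^ k) := by
  induction k with
  | zero => rw [pow_zero]; exact bd_one w _
  | succ k ih =>
    rw [pow_succ, add_mul, one_mul]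
    exact bd_mul ih hF

omit [Fintype K] in
theorem bd_prod {κ : Type} (s : Finset κ) {w : σ → ℕ} {N : κ → ℕ} {F : κ → MvPolynomial σ K}
    (hF : ∀ j, Bd w (N j) (F j)) : Bd w (∑ j ∈ s, N j) (∏ j ∈ s, F j) := by
  classical
  induction s using Finset.induction_on with
  | empty => rw [Finset.prod_empty]; exact bd_one w _
  | insert a s ha ih =>
    rw [Finset.prod_insert ha, Finset.sum_insert ha]
    exact bd_mul (hF a) ih

omit [Fintype K] [DecidableEq σ] in
theorem bd_hom {w : σ → ℕ} {N : ℕ} {F : MvPolynomial σ K} (hF : IsWeightedHomogeneous w F N) :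
    Bd w N F := by
  intro d hd
  have := hF (mem_support_iff.1 hd)
  rw [Finsupp.weight_apply, Finsupp.sum_fintype _ _ (by simp)] at this
  rw [← this]
  refine le_of_eq (Finset.sum_congr rfl fun i _ => ?_)
  rw [smul_eq_mul, mul_comm]

theorem sum_eval_eq_zero (f : MvPolynomial σ K) (w : σ → ℕ) (N : ℕ) (hN : Bd w N f)
    (h : N < (Fintype.card K - 1) * ∑ i, w i) : ∑ x, eval x f = 0 := by
  have : DecidableEq K := Classical.decEq K
  calc
    ∑ x, eval x f = ∑ x : σ → K, ∑ d ∈ f.support, f.coeff d * ∏ i, x i ^ d i := by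
      simp only [eval_eq']
    _ = ∑ d ∈ f.support, ∑ x : σ → K, f.coeff d * ∏ i, x i ^ d i := sum_comm
    _ = 0 := sum_eq_zero ?_
  intro d hd
  obtain ⟨i, hi⟩ : ∃ i, d i < Fintype.card K - 1 := by
    by_contra hcon
    push Not at hcon
    have h1 := hN d hd
    have h2 : (Fintype.card K - 1) * ∑ i, w i ≤ ∑ i, w i * d i := by
      rw [Finset.mul_sum]
      refine Finset.sum_le_sum fun i _ => ?_
      rw [mul_comm]
      exact Nat.mul_le_mul_left _ (hcon i)
    omega
  calc
    (∑ x : σ → K, f.coeff d * ∏ i, x i ^ d i) = f.coeff d * ∑ x : σ → K, ∏ i, x i ^ d i :=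
      (mul_sum ..).symm
    _ = 0 := (mul_eq_zero.mpr ∘ Or.inr) ?_
  calc
    (∑ x : σ → K, ∏ i, x i ^ d i) =
        ∑ x₀ : { j // j ≠ i } → K, ∑ x : { x : σ → K // x ∘ (↑) = x₀ }, ∏ j, (x : σ → K) j ^ d j :=
      (Fintype.sum_fiberwise _ _).symm
    _ = 0 := Fintype.sum_eq_zero _ ?_
  intro x₀
  let e : K ≃ { x // x ∘ ((↑) : _ → σ) = x₀ } := (Equiv.subtypeEquivCodomain _).symm
  calc
    (∑ x : { x : σ → K // x ∘ (↑) = x₀ }, ∏ j, (x : σ → K) j ^ d j) =
        ∑ a : K, ∏ j : σ, (e a : σ → K) j ^ d j := (e.sum_comp _).symm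
    _ = ∑ a : K, (∏ j, x₀ j ^ d j) * a ^ d i := Fintype.sum_congr _ _ ?_
    _ = (∏ j, x₀ j ^ d j) * ∑ a : K, a ^ d i := by rw [mul_sum]
    _ = 0 := by rw [sum_pow_lt_card_sub_one K _ hi, mul_zero]
  intro a
  let e' : { j // j = i } ⊕ { j // j ≠ i } ≃ σ := Equiv.sumCompl _
  let : Unique { j // j = i } :=
    { default := ⟨i, rfl⟩
      uniq := fun ⟨j, h⟩ => Subtype.val_injective h }
  calc
    (∏ j : σ, (e a : σ → K) j ^ d j) =
        (e a : σ → K) i ^ d i * ∏ j : { j // j ≠ i }, (e a : σ → K) j ^ d j := by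
      rw [← e'.prod_comp, Fintype.prod_sum_type, univ_unique, prod_singleton]; rfl
    _ = a ^ d i * ∏ j : { j // j ≠ i }, (e a : σ → K) j ^ d j := by
      rw [Equiv.subtypeEquivCodomain_symm_apply_eq]
    _ = a ^ d i * ∏ j, x₀ j ^ d j := congr_arg _ (Fintype.prod_congr _ _ ?_)
    -- see below
    _ = (∏ j, x₀ j ^ d j) * a ^ d i := mul_comm _ _
  -- the remaining step of the calculation above
  rintro ⟨j, hj⟩
  change (e a : σ → K) j ^ d j = x₀ ⟨j, hj⟩ ^ d j
  rw [Equiv.subtypeEquivCodomain_symm_apply_ne]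

variable [DecidableEq K] (p : ℕ) [CharP K p]

theorem char_dvd {κ : Type} [Fintype κ] {f : κ → MvPolynomial σ K} (w : σ → ℕ) (e : κ → ℕ)
    (hf : ∀ j, IsWeightedHomogeneous w (f j) (e j)) (h : ∑ j, e j < ∑ i, w i) :
    p ∣ Fintype.card { x : σ → K // ∀ i, eval x (f i) = 0 } := by
  have hq : 0 < Fintype.card K - 1 := by rw [← Fintype.card_units, Fintype.card_pos_iff]; exact ⟨1⟩
  let S : Finset (σ → K) := {x | ∀ i, eval x (f i) = 0}
  have hS (x : σ → K) : x ∈ S ↔ ∀ i, eval x (f i) = 0 := by simp [S]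
  let F : MvPolynomial σ K := ∏ i, (1 - f i ^ (Fintype.card K - 1))
  have hF : ∀ x, eval x F = if x ∈ S then 1 else 0 := by
    intro x
    calc
      eval x F = ∏ i, eval x (1 - f i ^ (Fintype.card K - 1)) := eval_prod _ _ x
      _ = if x ∈ S then 1 else 0 := ?_
    simp only [(eval x).map_sub, (eval x).map_pow, (eval x).map_one]
    split_ifs with hx
    · apply Finset.prod_eq_one
      intro i hi
      rw [hS] at hx
      rw [hx i, zero_pow hq.ne', sub_zero]
    · obtain ⟨i, hx⟩ : ∃ i, eval x (f i) ≠ 0 := by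
        simpa [hS, not_forall, Classical.not_imp] using hx
      apply Finset.prod_eq_zero (Finset.mem_univ i)
      rw [pow_card_sub_one_eq_one (eval x (f i)) hx, sub_self]
  have key : ∑ x, eval x F = Fintype.card { x : σ → K // ∀ i, eval x (f i) = 0 } := by
    rw [Fintype.card_of_subtype S hS, card_eq_sum_ones, Nat.cast_sum, Nat.cast_one, ←
      Fintype.sum_extend_by_zero S, sum_congr rfl fun x _ => hF x]
  rw [← CharP.cast_eq_zero_iff K, ← key]
  refine sum_eval_eq_zero F w ((Fintype.card K - 1) * ∑ j, e j) ?_ ?_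
  · rw [Finset.mul_sum]
    exact bd_prod _ fun j => bd_sub (bd_one w _) (bd_pow (bd_hom (hf j)) _)
  · gcongr

end

theorem cw : S_CW := by
  intro K _ _ ι κ _ _ w e f hw he hf h
  classical
  haveI : Fintype K := Fintype.ofFinite K
  obtain ⟨p, hp⟩ := CharP.exists K
  have hpp : p.Prime := CharP.char_is_prime K p
  have hd := char_dvd (K := K) (σ := ι) p (f := f) w e hf h
  have h0 : ∀ j, eval (0 : ι → K) (f j) = 0 := by
    intro j
    have : constantCoeff (f j) = 0 := by
      rw [constantCoeff_eq]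
      by_contra hc
      have := hf j hc
      rw [map_zero] at this
      exact absurd this (he j).ne
    rw [eval_zero, this]
  have hpos : 0 < Fintype.card { x : ι → K // ∀ i, eval x (f i) = 0 } :=
    Fintype.card_pos_iff.2 ⟨⟨0, h0⟩⟩
  have h1 : 1 < Fintype.card { x : ι → K // ∀ i, eval x (f i) = 0 } :=
    lt_of_lt_of_le hpp.one_lt (Nat.le_of_dvd hpos hd)
  obtain ⟨x, hx⟩ := Fintype.exists_ne_of_one_lt_card h1 ⟨0, h0⟩
  refine ⟨x.1, fun h => hx (Subtype.ext h), x.2⟩

end Pool.Agent.Q177.TL.Cw
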