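import Pool.Agent.Q49.TL.Alg
import Pool.Agent.Y140.HD.Core

set_option autoImplicit false

/-!
# LINE: restriction to a line
-/

namespace Pool.Agent.Q177.TL.Line

open Polynomial Pool.Agent.Q49.TL
open Pool.Agent.Y140.HD (place_line' const_galois irred_of_conj)

theorem core_line {K : Type} [Field K] [Infinite K] (ι : Type) [Finite ι] (i0 : ι) (E N : Type)
    [Field E] [Algebra (MvPolynomial ι K) E] [IsFractionRing (MvPolynomial ι K) E]
    [Algebra K E] [IsScalarTower K (MvPolynomial ι K) E] [Field N] [Algebra E N]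
    [FiniteDimensional E N] [IsGalois E N] (f : (MvPolynomial ι K)[X])
    (hf : Hyp K (MvPolynomial ι K) E f)
    (hsplit : ((f.map (algebraMap (MvPolynomial ι K) E)).map (algebraMap E N)).Splits)
    (D : MvPolynomial ι K) (hD : D ≠ 0) :
    ∃ φ : MvPolynomial ι K →ₐ[K] K[X], φ D ≠ 0 ∧
      Hyp K K[X] (RatFunc K) (f.map (φ : MvPolynomial ι K →+* K[X])) := by
  classical
  let A := MvPolynomial ι K
  let aAN : Algebra A N := ((algebraMap E N).comp (algebraMap A E)).toAlgebra
  have tAEN : IsScalarTower A E N := IsScalarTower.of_algebraMap_eq fun _ => rfl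
  let aKN : Algebra K N := ((algebraMap E N).comp (algebraMap K E)).toAlgebra
  have tKEN : IsScalarTower K E N := IsScalarTower.of_algebraMap_eq fun _ => rfl
  set fE : E[X] := f.map (algebraMap A E) with hfE
  have hirr : Irreducible fE := hf.irr
  have hsep : fE.Separable := hf.sep
  have hmon : fE.Monic := hf.monic.map _
  haveI : Fact (Irreducible fE) := ⟨hirr⟩
  -- constants of the base
  have hregE : ∀ y : E, IsAlgebraic K y → y ∈ Set.range (algebraMap K E) := by
    intro y hy
    have h1 : IsAlgebraic K (algebraMap E (AdjoinRoot fE) y) := hy.algebraMap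
    obtain ⟨c, hc⟩ := hf.con _ h1
    refine ⟨c, ?_⟩
    apply (algebraMap E (AdjoinRoot fE)).injective
    rw [← hc]
    rfl
  let L := algebraicClosure K N
  have hfin : FiniteDimensional K L := by
    have h1 : Algebra.EssFiniteType A E := .of_isLocalization E (nonZeroDivisors A)
    have h2 : Algebra.EssFiniteType K E := .comp K A E
    have h3 : Algebra.EssFiniteType K N := .comp K E N
    exact Pool.Agent.TH178.HI.finite_closure K N
  have hgal : IsGalois K L := const_galois hregE
  have hregN : ∀ y : N, IsAlgebraic L y → y ∈ Set.range (algebraMap L N) := by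
    intro y hy
    have h1 : IsAlgebraic K y := hy.restrictScalars K
    exact ⟨⟨y, mem_algebraicClosure_iff.2 h1⟩, rfl⟩
  let α₀ : (N ≃ₐ[E] N) →* (L ≃ₐ[K] L) := (AlgEquiv.restrictNormalHom (F := K) (K₁ := N) L).comp
    (AlgEquiv.restrictScalarsHom K)
  have hα₀ : ∀ (σ : N ≃ₐ[E] N) (x : L), σ (algebraMap L N x) = algebraMap L N (α₀ σ x) :=
    fun σ x => (AlgEquiv.restrictNormal_commutes (σ.restrictScalars K) L x).symm
  -- the roots
  set g : N[X] := fE.map (algebraMap E N) with hg
  have hgsep : g.Separable := hsep.map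
  have hgmon : g.Monic := hmon.map _
  set R : Finset N := g.roots.toFinset with hRdef
  have hR : g = ∏ α ∈ R, (X - C α) := by
    have h1 := hsplit.eq_prod_roots_of_monic hgmon
    have h2 : R.val = g.roots := by
      rw [hRdef, Multiset.toFinset_val, Multiset.dedup_eq_self]
      exact nodup_roots hgsep
    conv_lhs => rw [h1]
    rw [Finset.prod_eq_multiset_prod, h2]
  have hroot : ∀ θ ∈ R, eval₂ (algebraMap A N) θ f = 0 := by
    intro θ hθ
    have h1 : g.eval θ = 0 := by
      rw [hRdef, Multiset.mem_toFinset] at hθ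
      exact (mem_roots'.1 hθ).2
    rw [hg, hfE, Polynomial.map_map, eval_map] at h1
    exact h1
  have hne : R.Nonempty := by
    have h1 : 0 < g.degree := by
      rw [hg, degree_map]; exact degree_pos_of_irreducible hirr
    obtain ⟨θ, hθ⟩ := hsplit.exists_eval_eq_zero h1.ne'
    refine ⟨θ, ?_⟩
    rw [hRdef, Multiset.mem_toFinset, mem_roots hgmon.ne_zero]
    exact hθ
  have hex : ∀ θ : N, ∃ x : integralClosure A N, θ ∈ R → (x : N) = θ := by
    intro θ
    by_cases h : θ ∈ R
    · exact ⟨⟨θ, f, hf.monic, hroot θ h⟩, fun _ => rfl⟩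
    · exact ⟨0, fun h' => absurd h' h⟩
  choose c hc using hex
  have hAN : Function.Injective (algebraMap A N) := by
    rw [IsScalarTower.algebraMap_eq A E N]
    exact (algebraMap E N).injective.comp (IsFractionRing.injective A E)
  have hrootC : ∀ θ ∈ R, eval₂ (algebraMap A (integralClosure A N)) (c θ) f = 0 := by
    intro θ hθ
    apply Subtype.val_injective
    have h1 : algebraMap (integralClosure A N) N
        (eval₂ (algebraMap A (integralClosure A N)) (c θ) f) = 0 := by
      rw [hom_eval₂]
      have h2 : (algebraMap (integralClosure A N) N).comp (algebraMap A (integralClosure A N)) =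
        algebraMap A N := rfl
      have h3 : algebraMap (integralClosure A N) N (c θ) = θ := hc θ hθ
      rw [h2, h3, hroot θ hθ]
    exact h1
  -- transitivity
  have htrans : ∀ α ∈ R, ∀ β ∈ R, ∃ σ : N ≃ₐ[E] N, σ α = β := by
    intro α hα β hβ
    have hr : ∀ x ∈ R, minpoly E x = fE := by
      intro x hx
      have h1 := hroot x hx
      have h2 : aeval x fE = 0 := by
        rw [aeval_def, hfE, eval₂_map]; exact h1
      exact (minpoly.eq_of_irreducible_of_monic hirr h2 hmon).symm
    have h1 : IsConjRoot E α β := by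
      rw [isConjRoot_def, hr α hα, hr β hβ]
    obtain ⟨σ, hσ⟩ := isConjRoot_iff_exists_algEquiv.1 h1
    exact ⟨σ.symm, by rw [← hσ]; simp⟩
  -- the bad locus
  let P : integralClosure A N := ∏ p ∈ R.offDiag, (c p.1 - c p.2)
  have hP : P ≠ 0 := by
    rw [Finset.prod_ne_zero_iff]
    rintro ⟨x, y⟩ hxy
    rw [Finset.mem_offDiag] at hxy
    obtain ⟨hx, hy, hne⟩ := hxy
    rw [sub_ne_zero]
    intro h
    apply hne
    have h1 := congrArg Subtype.val h
    rwa [hc x hx, hc y hy] at h1
  have hPalg : IsAlgebraic A P := by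
    have h0 : Function.Injective (algebraMap (integralClosure A N) N) := Subtype.val_injective
    rw [← isAlgebraic_algebraMap_iff h0]
    have h1 : IsIntegral A (algebraMap (integralClosure A N) N P) := P.2
    exact h1.isAlgebraic
  obtain ⟨d, hd0, hd⟩ := hPalg.exists_nonzero_dvd (mem_nonZeroDivisors_of_ne_zero hP)
  obtain ⟨φ, Ω', j1, j2, j3, j4, j5, j6, π, j7, j8, γ', hφD, hφX, hπA, hπL, hσ, hconst⟩ :=
    place_line' K L (N ≃ₐ[E] N) α₀ ι i0 E N (MulEquiv.refl _)
      (d * D) (mul_ne_zero hd0 hD) hα₀ hregN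
  rw [map_mul] at hφD
  have hφd : φ d ≠ 0 := left_ne_zero_of_mul hφD
  have hφ' : φ D ≠ 0 := right_ne_zero_of_mul hφD
  refine ⟨φ, hφ', ?_⟩
  set f' : K[X][X] := f.map (φ : MvPolynomial ι K →+* K[X]) with hf'
  set q : (RatFunc K)[X] := f'.map (algebraMap K[X] (RatFunc K)) with hq
  have hqmon : q.Monic := (hf.monic.map _).map _
  have hπf : ∀ x : integralClosure A N, eval₂ (algebraMap A (integralClosure A N)) x f = 0 →
      aeval (π x) q = 0 := by
    intro x hx
    have h1 := congrArg π hx
    rw [hom_eval₂, map_zero] at h1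
    rw [aeval_def, hq, hf', eval₂_map, eval₂_map]
    rw [← h1]
    congr 1
    apply RingHom.ext
    intro a
    exact (hπA a).symm
  let ρ : N → Ω' := fun θ => π (c θ)
  have hinjρ : ∀ x ∈ R, ∀ y ∈ R, ρ x = ρ y → x = y := by
    intro x hx y hy hxy
    by_contra hne
    have h1 : π (c x - c y) = 0 := by
      rw [map_sub]
      exact sub_eq_zero.2 hxy
    have h2 : π P = 0 := by
      rw [map_prod]
      exact Finset.prod_eq_zero (Finset.mem_offDiag.2 ⟨hx, hy, hne⟩ :
        ((x, y) : N × N) ∈ R.offDiag) h1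
    obtain ⟨e, he⟩ := hd
    have h3 := hπA d
    rw [he, map_mul, h2, zero_mul, eq_comm,
      map_eq_zero_iff _ (algebraMap (RatFunc K) Ω').injective,
      map_eq_zero_iff _ (RatFunc.algebraMap_injective K)] at h3
    exact hφd h3
  have hdeg : q.natDegree = R.card := by
    rw [(hf.monic.map (φ : MvPolynomial ι K →+* K[X])).natDegree_map, hf.monic.natDegree_map]
    have h1 := congrArg natDegree hR
    rw [hmon.natDegree_map, hf.monic.natDegree_map,
      natDegree_prod_of_monic _ _ (fun i _ => monic_X_sub_C _)] at h1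
    simpa using h1
  have hρroot : ∀ θ ∈ R, aeval (ρ θ) q = 0 := fun θ hθ => hπf (c θ) (hrootC θ hθ)
  have hqsep : q.Separable := by
    have hprod : q.map (algebraMap (RatFunc K) Ω') = ∏ i ∈ R, (X - C (ρ i)) := by
      have hpm : (∏ i ∈ R, (X - C (ρ i))).Monic :=
        monic_prod_of_monic _ _ fun i _ => monic_X_sub_C _
      have hpd : (∏ i ∈ R, (X - C (ρ i))).natDegree = R.card := by
        rw [natDegree_prod_of_monic _ _ (fun i _ => monic_X_sub_C _)]
        simp
      refine (eq_of_monic_of_dvd_of_natDegree_le hpm (hqmon.map _) ?_ ?_)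
      · apply Finset.prod_dvd_of_coprime
        · intro i hi j hj hij
          apply isCoprime_X_sub_C_of_isUnit_sub
          rw [isUnit_iff_ne_zero, sub_ne_zero]
          exact fun h => hij (hinjρ i hi j hj h)
        · intro i hi
          rw [dvd_iff_isRoot, IsRoot.def, eval_map_algebraMap]
          exact hρroot i hi
      · rw [hqmon.natDegree_map, hpd, hdeg]
    rw [← separable_map (algebraMap (RatFunc K) Ω'), hprod, separable_prod_X_sub_C_iff']
    exact hinjρ
  have hρmem : ∀ x ∈ R, ρ x ∈ separableClosure (RatFunc K) Ω' := by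
    intro x hx
    rw [mem_separableClosure_iff]
    exact hqsep.of_dvd (minpoly.dvd (RatFunc K) _ (hρroot x hx))
  have hqirr : Irreducible q := by
    refine irred_of_conj q hqmon R hne hdeg ρ hinjρ hρroot ?_
    intro _ x hx y hy
    obtain ⟨τ, hτ⟩ := htrans x hx y hy
    have h1 := hσ (γ'.symm τ) (c x) (c y) τ (by
      rw [MulEquiv.apply_symm_apply]
      rfl) (by rw [hc x hx, hc y hy, hτ]) (hρmem x hx)
    set σ := γ'.symm τ
    have h2 : ((σ ⟨ρ x, hρmem x hx⟩ : separableClosure (RatFunc K) Ω') : Ω') = ρ y := h1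
    rw [← h2]
    have h5 : minpoly (RatFunc K) (ρ x) =
        minpoly (RatFunc K) (⟨ρ x, hρmem x hx⟩ : separableClosure (RatFunc K) Ω') :=
      minpoly.algebraMap_eq (algebraMap (separableClosure (RatFunc K) Ω') Ω').injective
        (⟨ρ x, hρmem x hx⟩ : separableClosure (RatFunc K) Ω')
    rw [h5, ← minpoly.algEquiv_eq σ]
    have h6 := minpoly.aeval (RatFunc K) (σ ⟨ρ x, hρmem x hx⟩)
    have h7 := congrArg (algebraMap (separableClosure (RatFunc K) Ω') Ω') h6
    rw [map_zero, ← aeval_algebraMap_apply] at h7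
    exact h7
  refine ⟨hf.monic.map _, hqirr, hqsep, ?_⟩
  -- the constants
  intro z hz
  haveI : Fact (Irreducible q) := ⟨hqirr⟩
  obtain ⟨θ, hθ⟩ := hne
  let ev : AdjoinRoot q →ₐ[RatFunc K] Ω' := AdjoinRoot.liftAlgHom q (Algebra.ofId _ _) (ρ θ)
    (hρroot θ hθ)
  have hevroot : ev (AdjoinRoot.root q) = ρ θ := AdjoinRoot.liftAlgHom_root _ _ _ _
  have hevinj : Function.Injective ev := ev.toRingHom.injective
  obtain ⟨p, rfl⟩ := AdjoinRoot.mk_surjective z
  have hevp : ev (AdjoinRoot.mk q p) = aeval (ρ θ) p := by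
    rw [← AdjoinRoot.aeval_eq, ← aeval_algHom_apply, hevroot]
  let sρ : separableClosure (RatFunc K) Ω' := ⟨ρ θ, hρmem θ hθ⟩
  let wS : separableClosure (RatFunc K) Ω' := aeval sρ p
  have hwS : ((wS : separableClosure (RatFunc K) Ω') : Ω') = aeval (ρ θ) p := by
    have := aeval_algebraMap_apply Ω' sρ p
    exact this.symm
  have hwmem : aeval (ρ θ) p ∈ separableClosure (RatFunc K) Ω' := by
    rw [← hwS]; exact wS.2
  have hwalg : IsAlgebraic K (aeval (ρ θ) p : Ω') := by
    rw [← hevp]
    exact hz.algHom (ev.restrictScalars K)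
  obtain ⟨x, hx⟩ := hconst _ hwmem hwalg
  have hLint : ∀ x : L, algebraMap L N x ∈ integralClosure A N := by
    intro x
    have h1 : IsIntegral K (algebraMap L N x) :=
      (Algebra.IsIntegral.isIntegral (R := K) x).algebraMap
    have towKAN : IsScalarTower K A N := by
      apply IsScalarTower.of_algebraMap_eq
      intro k
      rw [IsScalarTower.algebraMap_apply A E N, ← IsScalarTower.algebraMap_apply K A E,
        ← IsScalarTower.algebraMap_apply K E N]
    exact h1.tower_top
  have hfixx : ∀ τ : N ≃ₐ[E] N, τ θ = θ → τ (x : N) = (x : N) := by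
    intro τ hτ
    have e1 := hσ (γ'.symm τ) (c θ) (c θ) τ (by
      rw [MulEquiv.apply_symm_apply]
      rfl) (by rw [hc θ hθ, hτ]) (hρmem θ hθ)
    have hπx : π ⟨algebraMap L N x, hLint x⟩ = algebraMap L Ω' x := hπL x (hLint x)
    have hmem2 : π ⟨algebraMap L N x, hLint x⟩ ∈ separableClosure (RatFunc K) Ω' := by
      rw [hπx, hx]; exact hwmem
    have e2 := hσ (γ'.symm τ) ⟨algebraMap L N x, hLint x⟩ ⟨algebraMap L N (α₀ τ x), hLint _⟩ τ (by
      rw [MulEquiv.apply_symm_apply]
      rfl) (hα₀ τ x).symm hmem2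
    have e2 := e2.trans (hπL (α₀ τ x) (hLint _))
    set σ := γ'.symm τ
    have e3 : σ sρ = sρ := Subtype.ext e1
    have e4 : σ wS = wS := by
      have h10 : aeval (σ.toAlgHom sρ) p = σ.toAlgHom (aeval sρ p) :=
        aeval_algHom_apply σ.toAlgHom sρ p
      have h11 : σ.toAlgHom sρ = sρ := e3
      rw [h11] at h10
      exact h10.symm
    have e5 : (⟨π ⟨algebraMap L N x, hLint x⟩, hmem2⟩ : separableClosure (RatFunc K) Ω') = wS := by
      apply Subtype.ext
      rw [hwS, ← hx]
      exact hπx
    rw [e5, e4, hwS, ← hx] at e2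
    have e6 : x = α₀ τ x := (algebraMap L Ω').injective e2
    have e7 := hα₀ τ x
    rw [← e6] at e7
    exact e7
  have hxE : (x : N) ∈ IntermediateField.adjoin E {θ} := by
    rw [← IsGalois.fixedField_fixingSubgroup (IntermediateField.adjoin E {θ})]
    rw [IntermediateField.mem_fixedField_iff]
    intro g' hg'
    apply hfixx
    rw [IntermediateField.mem_fixingSubgroup_iff] at hg'
    exact hg' θ (IntermediateField.mem_adjoin_simple_self E θ)
  let ev0 : AdjoinRoot fE →ₐ[E] N := AdjoinRoot.liftAlgHom fE (Algebra.ofId _ _) θ (by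
    have h1 := hroot θ hθ
    have h2 : aeval θ fE = 0 := by rw [aeval_def, hfE, eval₂_map]; exact h1
    exact h2)
  have hev0root : ev0 (AdjoinRoot.root fE) = θ := AdjoinRoot.liftAlgHom_root _ _ _ _
  have hxr : (x : N) ∈ ev0.fieldRange := by
    have h1 : IntermediateField.adjoin E {θ} ≤ ev0.fieldRange := by
      rw [IntermediateField.adjoin_simple_le_iff]
      exact ⟨AdjoinRoot.root fE, hev0root⟩
    exact h1 hxE
  obtain ⟨z', hz'⟩ := hxr
  have hz'alg : IsAlgebraic K z' := by
    have h1 : IsAlgebraic K ((ev0.restrictScalars K) z') := by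
      change IsAlgebraic K (ev0 z')
      have h2 : ev0 z' = (x : N) := hz'
      rw [h2]
      exact mem_algebraicClosure_iff.1 x.2
    exact (isAlgebraic_algHom_iff (ev0.restrictScalars K) ev0.toRingHom.injective).1 h1
  obtain ⟨k, hk⟩ := hf.con z' hz'alg
  refine ⟨k, ?_⟩
  apply hevinj
  rw [hevp, ← hx]
  have h8 : (x : N) = algebraMap K N k := by
    have h2 : ev0 z' = (x : N) := hz'
    rw [← h2, ← hk]
    exact (ev0.restrictScalars K).commutes k
  have h9 : x = algebraMap K L k := by
    apply Subtype.ext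
    exact h8
  rw [h9, ← IsScalarTower.algebraMap_apply K L Ω']
  exact (ev.restrictScalars K).commutes k

theorem line : S_LINE := by
  intro κ _ _ _ r hr f D hf hD
  let A := MvPolynomial (Fin r) κ
  let E := FractionRing A
  let fE : E[X] := f.map (algebraMap A E)
  haveI : IsGalois E fE.SplittingField :=
    IsGalois.of_separable_splitting_field (p := fE) hf.sep
  exact core_line (Fin r) ⟨0, hr⟩ E fE.SplittingField f hf
    (SplittingField.splits fE) D hD

end Pool.Agent.Q177.TL.Line
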